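import Pool.Agent.K7.H80.MD.Stm

/-! Project MD (MP_437110_pr), job ASY. -/

set_option autoImplicit false

namespace Pool.Agent.K7.H20.MDASY

open Filter Topology

lemma expdec (k : ℕ) (c a : ℝ) (hc : 0 < c) (ha : 0 < a) :
    Tendsto (fun n : ℕ => (n : ℝ) ^ k * Real.exp (-(c * (n : ℝ) ^ a))) atTop (nhds 0) := by
  have h := (tendsto_rpow_mul_exp_neg_mul_atTop_nhds_zero (k / a) c hc).comp
    ((tendsto_rpow_atTop ha).comp tendsto_natCast_atTop_atTop)
  refine h.congr (fun n => ?_)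
  simp only [Function.comp]
  rw [← Real.rpow_mul (Nat.cast_nonneg n), mul_div_cancel₀ _ ha.ne', Real.rpow_natCast, neg_mul]

lemma powdec (b : ℝ) (hb : b < 0) : Tendsto (fun n : ℕ => (n : ℝ) ^ b) atTop (nhds 0) := by
  have h := (tendsto_rpow_neg_atTop (y := -b) (by linarith)).comp tendsto_natCast_atTop_atTop
  refine h.congr (fun n => ?_)
  simp only [Function.comp, neg_neg]

theorem t : Pool.Agent.K7.H80.MD.StAsy := by
  intro x hx1 hx2
  -- the elementary bounds
  have hev : ∀ᶠ n : ℕ in atTop, (2 : ℝ) ≤ n ∧ (n : ℝ) ^ x ≤ n / 2 ∧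
      24 * 10 ^ 7 * (n : ℝ) ^ (9 * x / 4) < n := by
    have h1 : ∀ᶠ n : ℕ in atTop, (2 : ℝ) ≤ n :=
      tendsto_natCast_atTop_atTop.eventually (eventually_ge_atTop 2)
    have h2 := (powdec (x - 1) (by linarith)).eventually (gt_mem_nhds (by norm_num : (0 : ℝ) < 1 / 2))
    have h3 := (powdec (9 * x / 4 - 1) (by linarith)).eventually
      (gt_mem_nhds (by norm_num : (0 : ℝ) < 1 / (24 * 10 ^ 7)))
    filter_upwards [h1, h2, h3] with n h1 h2 h3
    have hn : (0 : ℝ) < n := by linarith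
    refine ⟨h1, ?_, ?_⟩
    · rw [Real.rpow_sub_one hn.ne', div_lt_iff₀ hn] at h2
      linarith
    · rw [Real.rpow_sub_one hn.ne', div_lt_iff₀ hn] at h3
      linarith
  have hfacts : ∀ n : ℕ, (2 : ℝ) ≤ n → (1 : ℝ) ≤ (n : ℝ) ^ x ∧
      (n : ℝ) ^ x ≤ n * ((n : ℝ) ^ x / (n - 1)) ∧ n * ((n : ℝ) ^ x / (n - 1)) ≤ 2 * (n : ℝ) ^ x ∧
      0 < (n : ℝ) ^ x / (n - 1) ∧ (n : ℝ) ^ x / n ≤ (n : ℝ) ^ x / (n - 1) ∧
      (n : ℝ) ^ x / (n - 1) ≤ 2 * ((n : ℝ) ^ x / n) := by
    intro n hn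
    have hn0 : (0 : ℝ) < n := by linarith
    have hn1 : (0 : ℝ) < n - 1 := by linarith
    have h1 : (1 : ℝ) ≤ (n : ℝ) ^ x := Real.one_le_rpow (by linarith) (by linarith)
    have h0 : (0 : ℝ) < (n : ℝ) ^ x := by linarith
    refine ⟨h1, ?_, ?_, by positivity, ?_, ?_⟩
    · rw [mul_div_assoc', le_div_iff₀ hn1]
      nlinarith
    · rw [mul_div_assoc', div_le_iff₀ hn1]
      nlinarith
    · exact div_le_div_of_nonneg_left h0.le hn1 (by linarith)
    · rw [mul_div_assoc', div_le_div_iff₀ hn1 hn0]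
      nlinarith
  refine ⟨fun n => (n : ℝ) ^ (7 * x / 4), ?_, ?_⟩
  · filter_upwards [hev] with n ⟨h1, h2, h3⟩
    obtain ⟨f1, f2, f3, f4, f5, f6⟩ := hfacts n h1
    have hn0 : (0 : ℝ) < n := by linarith
    have hn1 : (0 : ℝ) < n - 1 := by linarith
    have hR1 : (1 : ℝ) ≤ (n : ℝ) ^ (7 * x / 4) := Real.one_le_rpow (by linarith) (by linarith)
    refine ⟨f4, ?_, by linarith, by positivity, ?_⟩
    · rw [div_le_one hn1]
      linarith
    · set D := (n : ℝ) * ((n : ℝ) ^ x / (n - 1)) with hD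
      have hD0 : 0 ≤ D := by linarith
      have hs : Real.sqrt D ≤ 2 * (n : ℝ) ^ (x / 2) := by
        rw [Real.sqrt_le_left (by positivity)]
        have : (2 * (n : ℝ) ^ (x / 2)) ^ 2 = 4 * (n : ℝ) ^ x := by
          rw [mul_pow, ← Real.rpow_natCast ((n : ℝ) ^ (x / 2)), ← Real.rpow_mul hn0.le]
          norm_num
        rw [this]
        linarith
      have hm1 : (1 : ℝ) ≤ (n : ℝ) ^ (x / 2) := Real.one_le_rpow (by linarith) (by linarith)
      have hs0 := Real.sqrt_nonneg D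
      have hDs : D * Real.sqrt D ≤ 4 * (n : ℝ) ^ (7 * x / 4) := by
        calc D * Real.sqrt D ≤ (2 * (n : ℝ) ^ x) * (2 * (n : ℝ) ^ (x / 2)) :=
              mul_le_mul f3 hs hs0 (by positivity)
          _ = 4 * (n : ℝ) ^ (x + x / 2) := by rw [Real.rpow_add hn0]; ring
          _ ≤ 4 * (n : ℝ) ^ (7 * x / 4) := by
              apply mul_le_mul_of_nonneg_left _ (by norm_num)
              exact Real.rpow_le_rpow_of_exponent_le (by linarith) (by linarith)
      have hDx : D ≤ 2 * (n : ℝ) ^ (7 * x / 4) := by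
        refine f3.trans ?_
        apply mul_le_mul_of_nonneg_left _ (by norm_num)
        exact Real.rpow_le_rpow_of_exponent_le (by linarith) (by linarith)
      calc 10 ^ 7 * (Real.sqrt D + 1) * (D * Real.sqrt D + D + (n : ℝ) ^ (7 * x / 4) + 1)
          ≤ 10 ^ 7 * (3 * (n : ℝ) ^ (x / 2)) * (8 * (n : ℝ) ^ (7 * x / 4)) := by
            apply mul_le_mul
            · apply mul_le_mul_of_nonneg_left _ (by norm_num)
              linarith
            · linarith
            · positivity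
            · positivity
        _ = 24 * 10 ^ 7 * ((n : ℝ) ^ (x / 2) * (n : ℝ) ^ (7 * x / 4)) := by ring
        _ = 24 * 10 ^ 7 * (n : ℝ) ^ (9 * x / 4) := by
            rw [← Real.rpow_add hn0]
            congr 2
            ring
        _ < n := h3
  · have hB : Tendsto (fun n : ℕ => 2 * (1 / 2 : ℝ) ^ n + (n : ℝ) ^ 1 * Real.exp (-(4 * (n : ℝ) ^ x)) +
        (2 * ((n : ℝ) ^ 2 * Real.exp (-((1 / 16) * (n : ℝ) ^ x))) +
          (n : ℝ) ^ 2 * Real.exp (-((1 / 256) * (n : ℝ) ^ (3 * x - 1)))) +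
        24 * (n : ℝ) ^ (9 * x / 4 - 1)) atTop (nhds 0) := by
      have a1 : Tendsto (fun n : ℕ => 2 * (1 / 2 : ℝ) ^ n) atTop (nhds (2 * 0)) :=
        (tendsto_pow_atTop_nhds_zero_of_lt_one (by norm_num) (by norm_num)).const_mul 2
      have a2 := expdec 1 4 x (by norm_num) (by linarith)
      have a3 := (expdec 2 (1 / 16) x (by norm_num) (by linarith)).const_mul 2
      have a4 := expdec 2 (1 / 256) (3 * x - 1) (by norm_num) (by linarith)
      have a5 := (powdec (9 * x / 4 - 1) (by linarith)).const_mul 24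
      have := ((a1.add a2).add (a3.add a4)).add a5
      simpa using this
    refine squeeze_zero' ?_ ?_ hB
    · filter_upwards [hev] with n ⟨h1, h2, h3⟩
      obtain ⟨f1, f2, f3, f4, f5, f6⟩ := hfacts n h1
      positivity
    · filter_upwards [hev] with n ⟨h1, h2, h3⟩
      obtain ⟨f1, f2, f3, f4, f5, f6⟩ := hfacts n h1
      have hn0 : (0 : ℝ) < n := by linarith
      have hn1 : (0 : ℝ) < n - 1 := by linarith
      set q := (n : ℝ) ^ x / (n - 1) with hq
      have e1 : (n : ℝ) * Real.exp (-(4 * n * q)) ≤ (n : ℝ) ^ 1 * Real.exp (-(4 * (n : ℝ) ^ x)) := by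
        rw [pow_one]
        apply mul_le_mul_of_nonneg_left _ hn0.le
        apply Real.exp_le_exp.2
        nlinarith
      have e2 : (n : ℝ) ^ 2 * Real.exp (-(n * q / 16)) ≤
          (n : ℝ) ^ 2 * Real.exp (-((1 / 16) * (n : ℝ) ^ x)) := by
        apply mul_le_mul_of_nonneg_left _ (by positivity)
        apply Real.exp_le_exp.2
        linarith
      have e3 : (n : ℝ) ^ 2 * Real.exp (-(q * (n * q / 16) ^ 2)) ≤
          (n : ℝ) ^ 2 * Real.exp (-((1 / 256) * (n : ℝ) ^ (3 * x - 1))) := by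
        apply mul_le_mul_of_nonneg_left _ (by positivity)
        apply Real.exp_le_exp.2
        apply neg_le_neg
        have e4 : (n : ℝ) ^ (3 * x - 1) = (n : ℝ) ^ x / n * ((n : ℝ) ^ x) ^ 2 := by
          rw [Real.rpow_sub_one hn0.ne', ← Real.rpow_natCast ((n : ℝ) ^ x), ← Real.rpow_mul hn0.le,
            div_mul_eq_mul_div, ← Real.rpow_add hn0]
          congr 2
          push_cast
          ring
        rw [e4]
        have e5 : (n : ℝ) ^ x / n * ((n : ℝ) ^ x) ^ 2 ≤ q * (n * q) ^ 2 := by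
          apply mul_le_mul f5 _ (by positivity) f4.le
          exact pow_le_pow_left₀ (by positivity) f2 2
        calc 1 / 256 * ((n : ℝ) ^ x / n * ((n : ℝ) ^ x) ^ 2) ≤ 1 / 256 * (q * (n * q) ^ 2) :=
              mul_le_mul_of_nonneg_left e5 (by norm_num)
          _ = q * (n * q / 16) ^ 2 := by ring
      have e6 : ((n : ℝ) ^ 2 * q ^ 3 + (n : ℝ) ^ 3 * q ^ 4) / (n : ℝ) ^ (7 * x / 4) ≤
          24 * (n : ℝ) ^ (9 * x / 4 - 1) := by
        rw [div_le_iff₀ (by positivity)]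
        have e7 : 24 * (n : ℝ) ^ (9 * x / 4 - 1) * (n : ℝ) ^ (7 * x / 4) =
            24 * (((n : ℝ) ^ x) ^ 4 / n) := by
          rw [mul_assoc, ← Real.rpow_add hn0, ← Real.rpow_natCast ((n : ℝ) ^ x),
            ← Real.rpow_mul hn0.le, show (9 * x / 4 - 1 + 7 * x / 4) = x * ((4 : ℕ) : ℝ) - 1 by
              push_cast; ring, Real.rpow_sub_one hn0.ne']
        rw [e7]
        have e8 : (n : ℝ) * q ≤ 2 * (n : ℝ) ^ x := f3
        have e9 : (n : ℝ) ^ 2 * q ^ 3 = (n * q) ^ 3 / n := by field_simp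
        have e10 : (n : ℝ) ^ 3 * q ^ 4 = (n * q) ^ 4 / n := by field_simp
        have e14 : 24 * (((n : ℝ) ^ x) ^ 4 / n) = (24 * ((n : ℝ) ^ x) ^ 4) / n := by ring
        rw [e9, e10, ← add_div, e14]
        apply div_le_div_of_nonneg_right _ hn0.le
        have e11 : (n * q) ^ 3 ≤ (2 * (n : ℝ) ^ x) ^ 3 := pow_le_pow_left₀ (by positivity) e8 3
        have e12 : (n * q) ^ 4 ≤ (2 * (n : ℝ) ^ x) ^ 4 := pow_le_pow_left₀ (by positivity) e8 4
        have e13 : ((n : ℝ) ^ x) ^ 3 ≤ ((n : ℝ) ^ x) ^ 4 := pow_le_pow_right₀ f1 (by norm_num)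
        rw [mul_pow] at e11 e12
        nlinarith
      have : (n : ℝ) ^ 2 * (2 * Real.exp (-(n * q / 16)) + Real.exp (-(q * (n * q / 16) ^ 2))) =
          2 * ((n : ℝ) ^ 2 * Real.exp (-(n * q / 16))) +
            (n : ℝ) ^ 2 * Real.exp (-(q * (n * q / 16) ^ 2)) := by ring
      rw [this]
      linarith

end Pool.Agent.K7.H20.MDASY
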